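import Pool.Agent.E8helper39.AXD.Apex

/-! Project AX, order `M + 1`, general `M ≤ 9`: `coreH`. -/

set_option autoImplicit false

open Polynomial

namespace Pool.Agent.E8helper39.AXH

open Pool.Agent.E8helper39.AX (CC CC_mul CC_eq U V U_spec V_spec hQ1 hQ2 shift pol pol_coeff pol_deg
  pol_eval mulL powL smulL addL eqL pol_eqL pol_mulL pol_powL colL rowL RR coeff_RR)
open Pool.Agent.E8helper39.AXD (E E_mul E_ge core_of_sol)

noncomputable section

/-- A pair of compatible structures up to `M + 1`. -/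
structure Good (M m h : ℕ) (a c : ℚ) (R G : PowerSeries ℚ[X]) : Prop where
  R0 : PowerSeries.coeff 0 R = 1
  G0 : PowerSeries.coeff 0 G = 1
  dR : ∀ i ≤ M, (PowerSeries.coeff i R).natDegree ≤ i
  dR1 : ∀ k, M + 2 < k → (PowerSeries.coeff (M + 1) R).coeff k = 0
  cR1 : (PowerSeries.coeff (M + 1) R).coeff (M + 2) = a
  dG : ∀ t ≤ M + 1, (PowerSeries.coeff t G).natDegree ≤ t - 1
  cG1 : (PowerSeries.coeff (M + 1) G).coeff M = c
  cmp : ∀ i ≤ M + 1, ∀ t ≤ M + 1, PowerSeries.coeff t (CC (1 - PowerSeries.X) U m R i) =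
    PowerSeries.coeff i (CC (1 + PowerSeries.X) V h G t)

theorem coeffM {M : ℕ} {R R' : PowerSeries ℚ[X]} (h0 : PowerSeries.coeff 0 R = 1)
    (h0' : PowerSeries.coeff 0 R' = 1) (k : ℕ)
    (hmid : ∀ j, 1 ≤ j → j ≤ M →
      (PowerSeries.coeff j R * PowerSeries.coeff (M + 1 - j) R').coeff k = 0) :
    (PowerSeries.coeff (M + 1) (R * R')).coeff k =
      (PowerSeries.coeff (M + 1) R').coeff k + (PowerSeries.coeff (M + 1) R).coeff k := by
  rw [PowerSeries.coeff_mul, Finset.Nat.sum_antidiagonal_eq_sum_range_succ_mk,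
    Finset.sum_range_succ, Finset.sum_range_succ']
  simp only [Nat.sub_zero, Nat.sub_self, h0, h0', mul_one, one_mul, coeff_add, finsetSum_coeff]
  rw [Finset.sum_eq_zero, zero_add]
  intro j hj
  have := Finset.mem_range.mp hj
  exact hmid (j + 1) (by omega) (by omega)

theorem Good.mul {M m h m' h' : ℕ} {a c a' c' : ℚ} {R G R' G' : PowerSeries ℚ[X]} (hM : 1 ≤ M)
    (H : Good M m h a c R G) (H' : Good M m' h' a' c' R' G') :
    Good M (m + m') (h + h') (a + a') (c + c') (R * R') (G * G') := by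
  have hmR : ∀ k, M + 1 < k → ∀ j, 1 ≤ j → j ≤ M →
      (PowerSeries.coeff j R * PowerSeries.coeff (M + 1 - j) R').coeff k = 0 := by
    intro k hk j h1 h2
    apply coeff_eq_zero_of_natDegree_lt
    refine lt_of_le_of_lt natDegree_mul_le ?_
    have := H.dR j (by omega)
    have := H'.dR (M + 1 - j) (by omega)
    omega
  refine ⟨?_, ?_, ?_, ?_, ?_, ?_, ?_, ?_⟩
  · rw [PowerSeries.coeff_mul]
    simp [H.R0, H'.R0]
  · rw [PowerSeries.coeff_mul]
    simp [H.G0, H'.G0]
  · intro i hi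
    rw [PowerSeries.coeff_mul]
    refine Polynomial.natDegree_sum_le_of_forall_le _ _ fun p hp => ?_
    have h2 : p.1 + p.2 = i := Finset.HasAntidiagonal.mem_antidiagonal.mp hp
    refine Polynomial.natDegree_mul_le.trans ?_
    have := H.dR p.1 (by omega)
    have := H'.dR p.2 (by omega)
    omega
  · intro k hk
    rw [coeffM H.R0 H'.R0 k (hmR k (by omega)), H.dR1 k hk, H'.dR1 k hk, add_zero]
  · rw [coeffM H.R0 H'.R0 (M + 2) (hmR (M + 2) (by omega)), H.cR1, H'.cR1]
    ring
  · intro i hi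
    rw [PowerSeries.coeff_mul]
    refine Polynomial.natDegree_sum_le_of_forall_le _ _ fun p hp => ?_
    have h2 : p.1 + p.2 = i := Finset.HasAntidiagonal.mem_antidiagonal.mp hp
    refine Polynomial.natDegree_mul_le.trans ?_
    have := H.dG p.1 (by omega)
    have := H'.dG p.2 (by omega)
    omega
  · rw [coeffM H.G0 H'.G0 M, H.cG1, H'.cG1]
    · ring
    · intro j h1 h2
      apply coeff_eq_zero_of_natDegree_lt
      refine lt_of_le_of_lt natDegree_mul_le ?_
      have := H.dG j (by omega)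
      have := H'.dG (M + 1 - j) (by omega)
      omega
  · intro i hi t ht
    rw [CC_mul, CC_mul, map_sum, map_sum]
    simp_rw [PowerSeries.coeff_mul]
    rw [Finset.sum_comm]
    refine Finset.sum_congr rfl fun p hp => Finset.sum_congr rfl fun r hr => ?_
    have h2 : p.1 + p.2 = t := Finset.HasAntidiagonal.mem_antidiagonal.mp hp
    have h3 : r.1 + r.2 = i := Finset.HasAntidiagonal.mem_antidiagonal.mp hr
    rw [H.cmp r.1 (by omega) p.1 (by omega), H'.cmp r.2 (by omega) p.2 (by omega)]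

theorem Good.one {M : ℕ} (hM : 1 ≤ M) : Good M 0 0 0 0 1 1 := by
  refine ⟨?_, ?_, ?_, ?_, ?_, ?_, ?_, ?_⟩
  · simp
  · simp
  · intro i _
    rw [PowerSeries.coeff_one]
    split_ifs <;> simp
  · intro k _
    rw [PowerSeries.coeff_one]
    simp
  · rw [PowerSeries.coeff_one]
    simp
  · intro i _
    rw [PowerSeries.coeff_one]
    split_ifs <;> simp
  · rw [PowerSeries.coeff_one]
    simp
  · intro i _ t _
    unfold Pool.Agent.E8helper39.AX.CC
    rw [PowerSeries.coeff_one, PowerSeries.coeff_one]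
    by_cases hi : i = 0
    · by_cases ht : t = 0
      · subst hi; subst ht; simp
      · subst hi
        simp [ht, PowerSeries.coeff_one]
    · by_cases ht : t = 0
      · subst ht
        simp [hi, PowerSeries.coeff_one]
      · simp [hi, ht]

theorem Good.pow {M m h : ℕ} {a c : ℚ} {R G : PowerSeries ℚ[X]} (hM : 1 ≤ M)
    (H : Good M m h a c R G) (n : ℕ) :
    Good M (n * m) (n * h) (n * a) (n * c) (R ^ n) (G ^ n) := by
  induction n with
  | zero => simpa using Good.one hM
  | succ n ih =>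
    have := ih.mul hM H
    rw [pow_succ, pow_succ, Nat.succ_mul, Nat.succ_mul]
    push_cast
    rw [add_mul, add_mul, one_mul, one_mul]
    exact this

/-- the whole numerical check -/
def chk (M m : ℕ) (a c : ℤ) (T S : List (List ℤ)) : Bool :=
  ((List.range (M + 2)).all fun i =>
    eqL (mulL (powL [1, -1] m) (T.getD i [])) (mulL (powL [1, -1] (2 * i)) (colL m i)) &&
    eqL (mulL (powL [1, 1] (m + 1)) (S.getD i [])) (mulL (powL [1, 1] (2 * i)) (rowL m i)) &&
    (decide (M < i) || decide ((T.getD i []).length ≤ i + 1)) &&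
    decide ((S.getD i []).length ≤ i - 1 + 1) &&
    ((List.range (M + 2)).all fun t => (colL m i).getD t 0 == (rowL m t).getD i 0)) &&
  decide ((T.getD (M + 1) []).length ≤ M + 3) &&
  decide ((T.getD (M + 1) []).getD (M + 2) 0 = a) &&
  decide ((S.getD (M + 1) []).getD M 0 = c) && decide (T.getD 0 [] = [1]) &&
  decide (S.getD 0 [] = [1])

theorem good_of (M m : ℕ) (a c : ℤ) (T S : List (List ℤ)) (h : chk M m a c T S = true) :
    Good M m (m + 1) a c (RR T) (RR S) := by
  unfold chk at h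
  simp only [Bool.and_eq_true, Bool.or_eq_true, List.all_eq_true, List.mem_range,
    decide_eq_true_eq, beq_iff_eq] at h
  obtain ⟨⟨⟨⟨⟨h1, hT⟩, hT11⟩, hS9⟩, hT0⟩, hS0⟩ := h
  have e1 : pol [1, -1] = 1 - X := by
    simp [pol]
    ring
  have e2 : pol [1, 1] = 1 + X := by
    simp [pol]
  have e3 : pol [1] = 1 := by
    simp [pol]
  refine ⟨?_, ?_, ?_, ?_, ?_, ?_, ?_, ?_⟩
  · rw [coeff_RR, hT0, e3]
  · rw [coeff_RR, hS0, e3]
  · intro i hi
    rw [coeff_RR]
    rcases (h1 i (by omega)).1.1.2 with h2 | h2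
    · omega
    · exact (pol_deg _).trans (by omega)
  · intro k hk
    rw [coeff_RR, pol_coeff, List.getD_eq_default]
    · simp
    · omega
  · rw [coeff_RR, pol_coeff, hT11]
  · intro i hi
    rw [coeff_RR]
    have := (h1 i (by omega)).1.2
    exact (pol_deg _).trans (by omega)
  · rw [coeff_RR, pol_coeff, hS9]
  · intro i hi j hj
    rw [CC_eq (1 - X) (1 - PowerSeries.X) U hQ1 U_spec m i (RR T) (pol (colL m i)),
      CC_eq (1 + X) (1 + PowerSeries.X) V hQ2 V_spec (m + 1) j (RR S) (pol (rowL m j))]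
    · rw [Polynomial.coeff_coe, Polynomial.coeff_coe, pol_coeff, pol_coeff,
        (h1 i (by omega)).2 j (by omega)]
    · rw [coeff_RR]
      have := pol_eqL (h1 j (by omega)).1.1.1.2
      rw [pol_mulL, pol_mulL, pol_powL, pol_powL, e2] at this
      exact this
    · rw [coeff_RR]
      have := pol_eqL (h1 i (by omega)).1.1.1.1
      rw [pol_mulL, pol_mulL, pol_powL, pol_powL, e1] at this
      exact this

/-- table of `rho` for `P_m` -/
def tabT (m : ℕ) : List (List ℤ) := (List.range (m + 2)).map fun i =>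
  if i ≤ m then
    ((List.range (i + 1)).map fun j => smulL ((Nat.choose (m - i) j * Nat.choose (i + 1) (j + 1) :
      ℕ) : ℤ) (powL [1, -1] (i - j))).foldr addL []
  else powL [1, -1] (m + 2)

/-- table of `g` for `P_m` -/
def tabS (m : ℕ) : List (List ℤ) := (List.range (m + 2)).map fun t =>
  if t = 0 then [1] else
    ((List.range t).map fun j => smulL ((if t % 2 = 0 then 1 else -1) *
      ((Nat.choose (m + 1 - t) (j + 1) * Nat.choose (t - 1) j : ℕ) : ℤ))
        (powL [1, 1] (t - (j + 1)))).foldr addL []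

/-- the sign -/
def sg (M : ℕ) : ℤ := if M % 2 = 0 then 1 else -1

theorem chkP : ((List.range 10).all fun M => decide (M = 0) ||
    (chk M M (sg M) 0 (tabT M) (tabS M) && chk M (M + 1) 0 (-sg M) (tabT (M + 1)) (tabS (M + 1)))) =
      true := by
  decide +kernel

theorem good_P {M : ℕ} (hM : 1 ≤ M) (hM9 : M ≤ 9) :
    Good M M (M + 1) (sg M : ℤ) (0 : ℤ) (RR (tabT M)) (RR (tabS M)) := by
  have := chkP
  simp only [Bool.and_eq_true, Bool.or_eq_true, List.all_eq_true, List.mem_range,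
    decide_eq_true_eq] at this
  rcases this M (by omega) with h | h
  · omega
  · exact good_of M M _ _ _ _ h.1

theorem good_Q {M : ℕ} (hM : 1 ≤ M) (hM9 : M ≤ 9) :
    Good M (M + 1) (M + 2) (0 : ℤ) (-sg M : ℤ) (RR (tabT (M + 1))) (RR (tabS (M + 1))) := by
  have := chkP
  simp only [Bool.and_eq_true, Bool.or_eq_true, List.all_eq_true, List.mem_range,
    decide_eq_true_eq] at this
  rcases this M (by omega) with h | h
  · omega
  · exact good_of M (M + 1) _ _ _ _ h.2

theorem E_ge3 {N i j : ℕ} {R R' : PowerSeries ℚ[X]} (hN : i + j = N) (hj : 0 < j)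
    (h : ∀ i, 0 ≤ E i R) (h' : ∀ i, 0 ≤ E i R') :
    E N R * E 0 R' + E i R * E j R' ≤ E N (R * R') := by
  rw [E_mul]
  have h1 : ({(N, 0), (i, j)} : Finset (ℕ × ℕ)) ⊆ Finset.HasAntidiagonal.antidiagonal N := by
    intro p hp
    simp only [Finset.mem_insert, Finset.mem_singleton] at hp
    rcases hp with hp | hp <;>
      · rw [hp, Finset.HasAntidiagonal.mem_antidiagonal]
        simp only
        omega
  have h2 := Finset.sum_le_sum_of_subset_of_nonneg (f := fun p : ℕ × ℕ => E p.1 R * E p.2 R') h1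
    (fun p _ _ => mul_nonneg (h _) (h' _))
  rw [Finset.sum_pair (by
    intro h3
    have := congrArg Prod.snd h3
    simp only at this
    omega)] at h2
  exact h2

/-- lower bounds for one factor (`M = 2 k`) -/
structure B (k : ℕ) (R : PowerSeries ℚ[X]) : Prop where
  nn : ∀ i, 0 ≤ E i R
  e0 : 1 ≤ E 0 R
  e1 : 1 ≤ k → 1 ≤ E 1 R
  eh : 1 ≤ E k R

/-- lower bounds for `n` factors -/
structure W (k n : ℕ) (R : PowerSeries ℚ[X]) : Prop where
  nn : ∀ i, 0 ≤ E i R
  e0 : 1 ≤ E 0 R
  eh : 1 ≤ n → 1 ≤ E k R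
  eM : 2 ≤ n → 1 ≤ E (2 * k) R
  eM3 : 3 ≤ n → 2 ≤ E (2 * k) R
  eM1 : 3 ≤ n → 2 * (n : ℚ) - 5 ≤ E (2 * k + 1) R

theorem W.step {k n : ℕ} (hk : 1 ≤ k) {R R' : PowerSeries ℚ[X]} (H : W k n R) (H' : B k R') :
    W k (n + 1) (R * R') := by
  have h0 := H.e0
  have h0' := H'.e0
  have h1' := H'.e1 hk
  have hh' := H'.eh
  have g1 := E_ge (i := 0) (j := 0) H.nn H'.nn
  have g2 := E_ge (i := 0) (j := k) H.nn H'.nn
  have g3 := E_ge3 (N := 2 * k) (i := k) (j := k) (by omega) (by omega) H.nn H'.nn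
  have g4 := E_ge3 (N := 2 * k + 1) (i := 2 * k) (j := 1) (by omega) (by omega) H.nn H'.nn
  simp only [Nat.add_zero, Nat.zero_add] at g1 g2
  have n1 := H.nn (2 * k)
  have n2 := H.nn (2 * k + 1)
  have m1 : E (2 * k) R ≤ E (2 * k) R * E 0 R' := by nlinarith
  have m2 : E (2 * k + 1) R ≤ E (2 * k + 1) R * E 0 R' := by nlinarith
  have m3 : E (2 * k) R ≤ E (2 * k) R * E 1 R' := by nlinarith
  have m4 : E k R ≤ E k R * E k R' := by
    have := H.nn k
    nlinarith
  refine ⟨?_, ?_, ?_, ?_, ?_, ?_⟩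
  · intro i
    rw [E_mul]
    exact Finset.sum_nonneg fun p _ => mul_nonneg (H.nn _) (H'.nn _)
  · nlinarith
  · intro _
    nlinarith
  · intro hn
    have := H.eh (by omega)
    linarith
  · intro hn
    have := H.eh (by omega)
    have := H.eM (by omega)
    linarith
  · intro hn
    rcases Nat.eq_or_lt_of_le (show 2 ≤ n by omega) with h2 | h2
    · subst h2
      have := H.eM (by omega)
      push_cast
      linarith
    · have := H.eM1 (by omega)
      have := H.eM3 (by omega)
      push_cast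
      linarith

theorem W.one {k : ℕ} : W k 0 1 := by
  refine ⟨?_, ?_, ?_, ?_, ?_, ?_⟩
  · intro i
    unfold Pool.Agent.E8helper39.AXD.E
    rw [PowerSeries.coeff_one]
    split_ifs <;> simp
  · unfold Pool.Agent.E8helper39.AXD.E
    simp
  all_goals
    intro h
    omega

theorem W.powP {k : ℕ} (hk : 1 ≤ k) {R : PowerSeries ℚ[X]} (H : B k R) {n : ℕ}
    {S : PowerSeries ℚ[X]} (hS : W k n S) (j : ℕ) : W k (n + j) (S * R ^ j) := by
  induction j with
  | zero => simpa using hS
  | succ j ih =>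
    rw [pow_succ, ← mul_assoc]
    exact ih.step hk H

theorem nn_mul {R R' : PowerSeries ℚ[X]} (h : ∀ i, 0 ≤ E i R) (h' : ∀ i, 0 ≤ E i R') :
    ∀ i, 0 ≤ E i (R * R') := by
  intro i
  rw [E_mul]
  exact Finset.sum_nonneg fun p _ => mul_nonneg (h _) (h' _)

theorem nn_pow {R : PowerSeries ℚ[X]} (h : ∀ i, 0 ≤ E i R) (n : ℕ) : ∀ i, 0 ≤ E i (R ^ n) := by
  induction n with
  | zero =>
    rw [pow_zero]
    exact (W.one (k := 0)).nn
  | succ n ih =>
    rw [pow_succ]
    exact nn_mul ih h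

/-- check of the bounds -/
def chkB (k : ℕ) (T : List (List ℤ)) : Bool :=
  ((List.range T.length).all fun i => decide (0 ≤ (T.getD i []).sum)) &&
      decide (1 ≤ (T.getD 0 []).sum) && (decide (k = 0) || decide (1 ≤ (T.getD 1 []).sum)) &&
      decide (1 ≤ (T.getD k []).sum)

theorem B_of (k : ℕ) (T : List (List ℤ)) (h : chkB k T = true) : B k (RR T) := by
  unfold chkB at h
  simp only [Bool.and_eq_true, Bool.or_eq_true, List.all_eq_true, List.mem_range,
    decide_eq_true_eq] at h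
  obtain ⟨⟨⟨h1, h2⟩, h3⟩, h4⟩ := h
  refine ⟨?_, ?_, ?_, ?_⟩
  · intro i
    unfold Pool.Agent.E8helper39.AXD.E
    rw [coeff_RR, pol_eval]
    by_cases hi : i < T.length
    · exact_mod_cast h1 i hi
    · rw [List.getD_eq_default _ _ (by omega)]
      simp
  · unfold Pool.Agent.E8helper39.AXD.E
    rw [coeff_RR, pol_eval]
    exact_mod_cast h2
  · intro hk
    unfold Pool.Agent.E8helper39.AXD.E
    rw [coeff_RR, pol_eval]
    rcases h3 with h3 | h3
    · omega
    · exact_mod_cast h3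
  · unfold Pool.Agent.E8helper39.AXD.E
    rw [coeff_RR, pol_eval]
    exact_mod_cast h4

theorem chkBB : ((List.range 10).all fun M => decide (M = 0) ||
    (chkB (M / 2) (tabT M) && chkB (M / 2) (tabT (M + 1)))) = true := by
  decide +kernel

theorem B_PQ {M : ℕ} (hM : 1 ≤ M) (hM9 : M ≤ 9) :
    B (M / 2) (RR (tabT M)) ∧ B (M / 2) (RR (tabT (M + 1))) := by
  have := chkBB
  simp only [Bool.and_eq_true, Bool.or_eq_true, List.all_eq_true, List.mem_range,
    decide_eq_true_eq] at this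
  rcases this M (by omega) with h | h
  · omega
  · exact ⟨B_of _ _ h.1, B_of _ _ h.2⟩

/-- the exponents of the rows -/
def kap (M h t : ℕ) : ℕ := if t ≤ M then h - 2 * t else h - (2 * M + 3)

theorem exists_solH {M m h e : ℕ} (hM : 1 ≤ M) (hM9 : M ≤ 9) (he : 5 ≤ e) (hh : h = m + e)
    (hm1 : M * e < m) (hm2 : 2 * m < (2 * M + 1) * e) : ∃ b : ℕ → ℕ → ℚ,
    (∀ i ≤ M + 1, ∃ r : ℚ[X], r.natDegree ≤ i ∧
      (∀ t ≤ M + 1, b t i = ((1 - X) ^ (m - 2 * i) * r).coeff t) ∧ (i = M + 1 → r.eval 1 ≠ 0)) ∧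
    (∀ t ≤ M + 1, ∃ g : ℚ[X], g.natDegree ≤ t - 1 ∧
      ∀ i ≤ M + 1, b t i = ((1 + X) ^ (kap M h t) * g).coeff i) := by
  obtain ⟨c, hc⟩ : ∃ c, m = M * e + c := ⟨m - M * e, by omega⟩
  have hce : 2 * c < e := by
    have : (2 * M + 1) * e = 2 * (M * e) + e := by ring
    omega
  obtain ⟨a, ha⟩ : ∃ a, e = a + c := ⟨e - c, by omega⟩
  have hmM : 2 * (M + 1) ≤ m := by
    have : M * 5 ≤ M * e := Nat.mul_le_mul_left M he
    omega
  obtain ⟨BP, BQ⟩ := B_PQ hM hM9
  have hG := ((good_P hM hM9).pow hM a).mul hM ((good_Q hM hM9).pow hM c)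
  have em : a * M + c * (M + 1) = m := by
    rw [hc, ha]
    ring
  have eh : a * (M + 1) + c * (M + 2) = h := by
    rw [hh, hc, ha]
    ring
  have ea : (a : ℚ) * ((sg M : ℤ) : ℚ) + c * ((0 : ℤ) : ℚ) = a * (sg M : ℚ) := by push_cast; ring
  have ec : (a : ℚ) * ((0 : ℤ) : ℚ) + c * ((-sg M : ℤ) : ℚ) = -(c * (sg M : ℚ)) := by
    push_cast; ring
  rw [em, eh, ea, ec] at hG
  set R := RR (tabT M) ^ a * RR (tabT (M + 1)) ^ c with hR
  set G := RR (tabS M) ^ a * RR (tabS (M + 1)) ^ c with hGd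
  set A : ℚ := a * (sg M : ℚ) with hA
  set D : ℚ := -(c * (sg M : ℚ)) with hD
  have hE : E (M + 1) R - A - D ≠ 0 := by
    have hcq : 2 * (c : ℚ) < a + c := by
      have : 2 * c < a + c := by omega
      exact_mod_cast this
    rcases Nat.even_or_odd' M with ⟨k, hk | hk⟩
    · -- even
      have hk1 : 1 ≤ k := by omega
      have hk2 : M / 2 = k := by omega
      rw [hk2] at BP BQ
      have hW := W.powP hk1 BQ (W.powP hk1 BP W.one a) c
      rw [one_mul, zero_add] at hW
      have h1 := hW.eM1 (by omega)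
      have hs : (sg M : ℚ) = 1 := by
        unfold sg
        rw [if_pos (by omega)]
        norm_num
      rw [hs] at hA hD
      have hMk : 2 * k + 1 = M + 1 := by omega
      rw [hMk] at h1
      have he5 : (5 : ℚ) ≤ a + c := by
        have : 5 ≤ a + c := by omega
        exact_mod_cast this
      have hc1 : (1 : ℚ) ≤ c := by
        have : 1 ≤ c := by omega
        exact_mod_cast this
      push_cast at h1
      have : 0 < E (M + 1) R - A - D := by
        rw [hA, hD]
        linarith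
      exact this.ne'
    · have hs : (sg M : ℚ) = -1 := by
        unfold sg
        rw [if_neg (by omega)]
        norm_num
      rw [hs] at hA hD
      have h1 := nn_mul (nn_pow BP.nn a) (nn_pow BQ.nn c) (M + 1)
      have : 0 < E (M + 1) R - A - D := by
        rw [hA, hD]
        linarith
      exact this.ne'
  -- the columns
  let ρ : ℕ → ℚ[X] := fun i => if i = M + 1 then
    PowerSeries.coeff (M + 1) R - C A * X ^ (M + 2) - C D * X ^ (M + 1) else PowerSeries.coeff i R
  have hρ : ∀ i, i ≠ M + 1 → ρ i = PowerSeries.coeff i R := fun i hi => if_neg hi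
  have hρ10 : ρ (M + 1) =
      PowerSeries.coeff (M + 1) R - C A * X ^ (M + 2) - C D * X ^ (M + 1) := if_pos rfl
  have hcmp : ∀ i ≤ M + 1, ∀ t ≤ M + 1,
      ((1 - X) ^ (m - 2 * i) * PowerSeries.coeff i R : ℚ[X]).coeff t =
      ((1 + X) ^ (h - 2 * t) * PowerSeries.coeff t G : ℚ[X]).coeff i := by
    intro i hi t ht
    have h1 := hG.cmp i hi t ht
    rw [shift (1 - X) _ U hQ1 U_spec m i R (by omega),
      shift (1 + X) _ V hQ2 V_spec h t G (by omega), Polynomial.coeff_coe,
      Polynomial.coeff_coe] at h1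
    exact h1
  -- column M + 1
  have hcol10 : ∀ t ≤ M + 1, ((1 - X) ^ (m - 2 * (M + 1)) * ρ (M + 1) : ℚ[X]).coeff t =
      ((1 - X) ^ (m - 2 * (M + 1)) * PowerSeries.coeff (M + 1) R : ℚ[X]).coeff t -
        (if t = M + 1 then D else 0) := by
    intro t ht
    rw [hρ10]
    have e1 : ((1 - X) ^ (m - 2 * (M + 1)) *
        (PowerSeries.coeff (M + 1) R - C A * X ^ (M + 2) - C D * X ^ (M + 1)) : ℚ[X]) =
        (1 - X) ^ (m - 2 * (M + 1)) * PowerSeries.coeff (M + 1) R -
          (C A * (1 - X) ^ (m - 2 * (M + 1))) * X ^ (M + 2) -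
          (C D * (1 - X) ^ (m - 2 * (M + 1))) * X ^ (M + 1) := by ring
    rw [e1, coeff_sub, coeff_sub, coeff_mul_X_pow', coeff_mul_X_pow', if_neg (by omega), sub_zero]
    by_cases h10 : t = M + 1
    · subst h10
      rw [if_pos le_rfl, if_pos rfl, Nat.sub_self, coeff_C_mul,
        coeff_zero_eq_eval_zero ((1 - X) ^ (m - 2 * (M + 1)) : ℚ[X])]
      simp
    · rw [if_neg (by omega), if_neg h10]
  refine ⟨fun t i => ((1 - X) ^ (m - 2 * i) * ρ i : ℚ[X]).coeff t, ?_, ?_⟩
  · intro i hi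
    refine ⟨ρ i, ?_, fun t _ => rfl, ?_⟩
    · by_cases h10 : i = M + 1
      · subst h10
        rw [hρ10, natDegree_le_iff_coeff_eq_zero]
        intro k hk
        rw [coeff_sub, coeff_sub, coeff_C_mul_X_pow, coeff_C_mul_X_pow]
        rw [if_neg (show ¬ k = M + 1 by omega)]
        by_cases h11 : k = M + 2
        · subst h11
          rw [if_pos rfl, hG.cR1]
          ring
        · rw [if_neg h11, hG.dR1 k (by omega)]
          ring
      · rw [hρ i h10]
        exact hG.dR i (by omega)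
    · intro h10
      subst h10
      rw [hρ10]
      simp only [eval_sub, eval_mul, eval_C, eval_pow, eval_X, one_pow, mul_one]
      exact hE
  · intro t ht
    by_cases h10 : t = M + 1
    · subst h10
      refine ⟨(1 + X) * PowerSeries.coeff (M + 1) G - C D * X ^ (M + 1), ?_, ?_⟩
      · rw [natDegree_le_iff_coeff_eq_zero]
        have hd : ∀ k, M < k → (PowerSeries.coeff (M + 1) G).coeff k = 0 := by
          have := hG.dG (M + 1) le_rfl
          rw [natDegree_le_iff_coeff_eq_zero] at this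
          intro k hk
          exact this k (by omega)
        intro k hk
        obtain ⟨j, rfl⟩ : ∃ j, k = j + 1 := ⟨k - 1, by omega⟩
        rw [coeff_sub, add_mul, one_mul, coeff_add, coeff_X_mul, coeff_C_mul_X_pow,
          hd (j + 1) (by omega)]
        by_cases h9 : j = M
        · subst h9
          rw [if_pos rfl, hG.cG1]
          ring
        · rw [if_neg (by omega), hd j (by omega)]
          ring
      · intro i hi
        have hk : kap M h (M + 1) = h - (2 * M + 3) := if_neg (by omega)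
        rw [hk]
        have e2 : ((1 + X) ^ (h - (2 * M + 3)) *
            ((1 + X) * PowerSeries.coeff (M + 1) G - C D * X ^ (M + 1)) : ℚ[X]) =
            (1 + X) ^ (h - 2 * (M + 1)) * PowerSeries.coeff (M + 1) G -
              (C D * (1 + X) ^ (h - (2 * M + 3))) * X ^ (M + 1) := by
          have : h - 2 * (M + 1) = (h - (2 * M + 3)) + 1 := by omega
          rw [this, pow_succ]
          ring
        rw [e2, coeff_sub, ← hcmp i hi (M + 1) le_rfl, coeff_mul_X_pow']
        beta_reduce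
        by_cases hi10 : i = M + 1
        · subst hi10
          rw [hcol10 (M + 1) le_rfl, if_pos rfl, if_pos le_rfl, Nat.sub_self, coeff_C_mul,
            coeff_zero_eq_eval_zero ((1 + X) ^ (h - (2 * M + 3)) : ℚ[X])]
          simp
        · rw [hρ i hi10, if_neg (by omega), sub_zero]
    · refine ⟨PowerSeries.coeff t G, hG.dG t ht, fun i hi => ?_⟩
      have hk : kap M h t = h - 2 * t := if_pos (by omega)
      rw [hk, ← hcmp i hi t ht]
      beta_reduce
      by_cases hi10 : i = M + 1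
      · subst hi10
        rw [hcol10 t ht, if_neg h10, sub_zero]
      · rw [hρ i hi10]

theorem coreH {M m h e : ℕ} (hM : 1 ≤ M) (hM9 : M ≤ 9) (he : 5 ≤ e) (hh : h = m + e)
    (hm1 : M * e < m) (hm2 : 2 * m < (2 * M + 1) * e) (b : ℕ → ℕ → ℚ)
    (h1 : ∀ i ≤ M + 1, ∃ r : Polynomial ℚ, r.natDegree ≤ i ∧
      (∀ t ≤ M + 1, b t i = ((1 - X) ^ (m - 2 * i) * r).coeff t) ∧ (i = M + 1 → r.eval 1 = 0))
    (h2 : ∀ t ≤ M, ∃ g : Polynomial ℚ, g.natDegree ≤ t - 1 ∧
      ∀ i ≤ M + 1, b t i = ((1 + X) ^ (h - 2 * t) * g).coeff i)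
    (h3 : ∃ g : Polynomial ℚ, g.natDegree ≤ M ∧
      ∀ i ≤ M + 1, b (M + 1) i = ((1 + X) ^ (h - (2 * M + 3)) * g).coeff i) :
    b 0 0 = 0 := by
  obtain ⟨b', hb1, hb2⟩ := exists_solH hM hM9 he hh hm1 hm2
  refine core_of_sol (m := m) (N := M + 1) (kap M h) b b' h1 ?_ hb1 hb2
  intro t ht
  by_cases h10 : t = M + 1
  · subst h10
    obtain ⟨g, hg, hgc⟩ := h3
    refine ⟨g, by omega, ?_⟩
    have hk : kap M h (M + 1) = h - (2 * M + 3) := if_neg (by omega)
    rw [hk]
    exact hgc
  · obtain ⟨g, hg, hgc⟩ := h2 t (by omega)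
    refine ⟨g, hg, ?_⟩
    have hk : kap M h t = h - 2 * t := if_pos (by omega)
    rw [hk]
    exact hgc

end

end Pool.Agent.E8helper39.AXH
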