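import Pool.Agent.E8helper39.AXH.Core
import Pool.Agent.E8helper62.AXG.B3H

/-! Project AX: `apexzeroH` without hypotheses. -/

set_option autoImplicit false

namespace Pool.Agent.E8helper39.AXH

open Polynomial Pool.Agent.E8helper80.AX

theorem apexzeroH {M h m : ℕ} (hM : 1 ≤ M) (hM9 : M ≤ 9)
    (hd0 : (M : ℝ) * (2 * M + 1 - 2 * KG M) ≤ KG M * h - (KG M + 1) * m)
    (hd1 : KG M * h - (KG M + 1) * m < KG M - M)
    {f : (ℤ × ℤ) →₀ ℚ} (hf : (↑f.support : Set (ℤ × ℤ)) ⊆ ABG M h)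
    (hH : ∀ b < m, ∀ c : ℤ, ⌊KG M * h - (KG M + 1) * (b : ℝ)⌋ < c + ((M : ℤ) + 2) * ((m : ℤ) - b) →
      tc f c b = 0) :
    f (0, (h : ℤ)) = 0 := by
  refine Pool.Agent.E8helper62.AXG.apexzeroH ?_ hM hM9 hd0 hd1 hf hH
  intro M m h e a1 a2 a3 a4 a5 a6 b h1 h2 h3
  exact coreH a1 a2 a3 a4 a5 a6 b h1 h2 h3

end Pool.Agent.E8helper39.AXH
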